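import Mathlib
import Pool.Agent.MP_c3dba2_gt.Defs

open Set

namespace Pool.Agent.Results.MP_c3dba2_gt.Implication

open Pool.Agent.MP_c3dba2_gt

universe u

/-- The table of distances of the three four-point spaces. -/
def tab : Fin 3 → Fin 4 → Fin 4 → ℕ :=
  ![![![0, 4, 5, 3], ![4, 0, 6, 5], ![5, 6, 0, 5], ![3, 5, 5, 0]],
    ![![0, 6, 3, 3], ![6, 0, 4, 6], ![3, 4, 0, 5], ![3, 6, 5, 0]],
    ![![0, 4, 5, 4], ![4, 0, 3, 3], ![5, 3, 0, 6], ![4, 3, 6, 0]]]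

/-- The three four-point spaces. -/
def sp (k : Fin 3) : IntMet 4 where
  d := tab k
  self := by revert k; decide
  pos := by revert k; decide
  symm := by revert k; decide
  tri := by revert k; decide +kernel

theorem dGH01 : dGH (Pt.{u} (sp 0)) (Pt.{u} (sp 1)) ≤ (1 / 2) * (1 : ℕ) :=
  dGH_le_of_map ![0, 3, 1, 2] (by decide) (by decide)

theorem dGH12 : dGH (Pt.{u} (sp 1)) (Pt.{u} (sp 2)) ≤ (1 / 2) * (1 : ℕ) :=
  dGH_le_of_map ![3, 2, 1, 0] (by decide) (by decide)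

theorem dGH02 : dGH (Pt.{u} (sp 0)) (Pt.{u} (sp 2)) ≤ (1 / 2) * (1 : ℕ) :=
  dGH_le_of_map ![1, 2, 0, 3] (by decide) (by decide)

/-- The comparison of two distances. -/
def near (a b : ℕ) : Bool := a ≤ b + 1 && b ≤ a + 1

/-- All six comparisons between the space `0` and the space `j` along a map. -/
def allNear (j : Fin 3) (f0 f1 f2 f3 : Fin 4) : Bool :=
  near (tab 0 0 1) (tab j f0 f1) && near (tab 0 0 2) (tab j f0 f2) &&
  near (tab 0 0 3) (tab j f0 f3) && near (tab 0 1 2) (tab j f1 f2) &&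
  near (tab 0 1 3) (tab j f1 f3) && near (tab 0 2 3) (tab j f2 f3)

theorem unique01 : ∀ f0 f1 f2 f3 : Fin 4, allNear 1 f0 f1 f2 f3 = true →
    f0 = 0 ∧ f1 = 3 ∧ f2 = 1 ∧ f3 = 2 := by decide +kernel

theorem unique02 : ∀ f0 f1 f2 f3 : Fin 4, allNear 2 f0 f1 f2 f3 = true →
    f0 = 1 ∧ f1 = 2 ∧ f2 = 0 ∧ f3 = 3 := by decide +kernel

theorem near_of_mem {i j : Fin 3} {R : Set (∀ k : Fin 3, Pt.{u} (sp k))}
    (hopt : IsOptimal (proj i j R))
    (hd : dGH (Pt.{u} (sp i)) (Pt.{u} (sp j)) ≤ (1 / 2) * (1 : ℕ))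
    {x y : ∀ k : Fin 3, Pt.{u} (sp k)} (hx : x ∈ R) (hy : y ∈ R) :
    near (tab i (x i).val (y i).val) (tab j (x j).val (y j).val) := by
  have h1 : dis (proj i j R) ≤ ((1 : ℕ) : ℝ) := by
    have h := hopt.2
    rw [← h] at hd
    exact le_of_mul_le_mul_left hd (by norm_num)
  have h2 := le_dis (R := proj i j R) (p := (x i, x j)) (q := (y i, y j)) ⟨x, hx, rfl⟩ ⟨y, hy, rfl⟩
  have h3 : |((tab i (x i).val (y i).val : ℕ) : ℝ) - (tab j (x j).val (y j).val : ℕ)| ≤ (1 : ℕ) :=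
    le_trans h2 h1
  rw [abs_natCast_sub_le] at h3
  simpa [near] using h3

theorem not_hasTriple : ¬ HasTriple (fun k : Fin 3 => Pt.{u} (sp k)) := by
  rintro ⟨R, hR⟩
  have hex : ∀ a : Fin 4, ∃ x ∈ R, (x 0).val = a := by
    intro a
    obtain ⟨y, x, hx, hxy⟩ := (hR 0 1).1.1 ⟨a⟩
    refine ⟨x, hx, ?_⟩
    have : x 0 = ⟨a⟩ := congrArg Prod.fst hxy
    rw [this]
  choose x hxR hx0 using hex
  have n01 := fun a b => near_of_mem (hR 0 1) dGH01 (hxR a) (hxR b)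
  have n02 := fun a b => near_of_mem (hR 0 2) dGH02 (hxR a) (hxR b)
  have n12 := fun a b => near_of_mem (hR 1 2) dGH12 (hxR a) (hxR b)
  simp only [hx0] at n01 n02
  obtain ⟨h10, h11, h12, h13⟩ := unique01 (x 0 1).val (x 1 1).val (x 2 1).val (x 3 1).val
    (by simp only [allNear, Bool.and_eq_true]
        exact ⟨⟨⟨⟨⟨n01 0 1, n01 0 2⟩, n01 0 3⟩, n01 1 2⟩, n01 1 3⟩, n01 2 3⟩)
  obtain ⟨h20, h21, h22, h23⟩ := unique02 (x 0 2).val (x 1 2).val (x 2 2).val (x 3 2).val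
    (by simp only [allNear, Bool.and_eq_true]
        exact ⟨⟨⟨⟨⟨n02 0 1, n02 0 2⟩, n02 0 3⟩, n02 1 2⟩, n02 1 3⟩, n02 2 3⟩)
  have e1 := n12 0 1
  have e2 := n12 0 2
  have e3 := n12 0 3
  have e4 := n12 1 2
  have e5 := n12 1 3
  have e6 := n12 2 3
  rw [h10, h11, h20, h21] at e1
  rw [h10, h12, h20, h22] at e2
  rw [h10, h13, h20, h23] at e3
  rw [h11, h12, h21, h22] at e4
  rw [h11, h13, h21, h23] at e5
  rw [h12, h13, h22, h23] at e6
  revert e1 e2 e3 e4 e5 e6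
  decide

theorem not_statementC : ¬ StatementC.{u} := fun h =>
  not_hasTriple (h (fun k : Fin 3 => Pt.{u} (sp k)))

/-- Statement (C) is false; in particular (C) implies (H). -/
theorem result : (StatementC.{u} → StatementH.{u}) ∧ ¬ StatementC.{u} :=
  ⟨fun h => absurd h not_statementC, not_statementC⟩

end Pool.Agent.Results.MP_c3dba2_gt.Implication
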