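import Mathlib
import Pool.Agent.MP_c3dba2_gt.Defs

open Set

namespace Pool.Agent.Results.MP_c3dba2_gt.Pointwise

open Pool.Agent.MP_c3dba2_gt

universe u w

/-- Distances in the subspaces `{0, 8, 13}`, `{0, 6, 11}`, `{0, 8, 11}` of the line. -/
def tab : Fin 3 → Fin 3 → Fin 3 → ℕ :=
  ![![![0, 8, 13], ![8, 0, 5], ![13, 5, 0]],
    ![![0, 6, 11], ![6, 0, 5], ![11, 5, 0]],
    ![![0, 8, 11], ![8, 0, 3], ![11, 3, 0]]]

/-- The three three-point spaces. -/
def sp (k : Fin 3) : IntMet 3 where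
  d := tab k
  self := by revert k; decide
  pos := by revert k; decide
  symm := by revert k; decide
  tri := by revert k; decide

/-- `a` and `b` differ by at most `2`. -/
def near (a b : ℕ) : Bool := a ≤ b + 2 && b ≤ a + 2

/-- `a` and `b` differ by at least `2`. -/
def apart (a b : ℕ) : Bool := a + 2 ≤ b || b + 2 ≤ a

theorem upper : ∀ i j a b : Fin 3, near (tab i a b) (tab j a b) = true := by decide +kernel

theorem lower : ∀ i j f0 f1 f2 : Fin 3, i ≠ j →
    (apart (tab i 0 1) (tab j f0 f1) || apart (tab i 0 2) (tab j f0 f2) ||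
      apart (tab i 1 2) (tab j f1 f2)) = true := by decide +kernel

theorem unique : ∀ i j f0 f1 f2 : Fin 3, i ≠ j →
    (near (tab i 0 1) (tab j f0 f1) && near (tab i 0 2) (tab j f0 f2) &&
      near (tab i 1 2) (tab j f1 f2)) = true → f0 = 0 ∧ f1 = 1 ∧ f2 = 2 := by decide +kernel

/-- The identity matching. -/
def diag : Set (∀ k : Fin 3, Pt.{u} (sp k)) := {x | ∀ i j, (x i).val = (x j).val}

theorem diag_isCorr (i j : Fin 3) : IsCorr (proj i j diag.{u}) := by
  refine ⟨fun x => ⟨⟨x.val⟩, fun _ => ⟨x.val⟩, fun _ _ => rfl, rfl⟩,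
    fun x => ⟨⟨x.val⟩, fun _ => ⟨x.val⟩, fun _ _ => rfl, rfl⟩⟩

theorem diag_dis_le (i j : Fin 3) : dis (proj i j diag.{u}) ≤ (2 : ℕ) := by
  apply dis_le (Nat.cast_nonneg _)
  rintro _ ⟨x, hx, rfl⟩ _ ⟨y, hy, rfl⟩
  show |((tab i (x i).val (y i).val : ℕ) : ℝ) - (tab j (x j).val (y j).val : ℕ)| ≤ (2 : ℕ)
  rw [hx i j, hy i j, abs_natCast_sub_le]
  have := upper i j (x j).val (y j).val
  simpa [near] using this

theorem diag_dis_self (i : Fin 3) : dis (proj i i diag.{u}) ≤ 0 := by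
  apply dis_le le_rfl
  rintro _ ⟨x, hx, rfl⟩ _ ⟨y, hy, rfl⟩
  simp

theorem two_le_of_apart {a b : ℕ} (h : apart a b = true) : (2 : ℝ) ≤ |(a : ℝ) - b| := by
  simp only [apart, Bool.or_eq_true, decide_eq_true_eq] at h
  rcases h with h | h
  · have : (a : ℝ) + 2 ≤ b := by exact_mod_cast h
    rw [abs_sub_comm]
    exact le_trans (by linarith) (le_abs_self _)
  · have : (b : ℝ) + 2 ≤ a := by exact_mod_cast h
    exact le_trans (by linarith) (le_abs_self _)

theorem two_le_dis {i j : Fin 3} (hij : i ≠ j) (S : Set (Pt.{u} (sp i) × Pt.{u} (sp j)))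
    (hS : IsCorr S) : (2 : ℝ) ≤ dis S := by
  have hex : ∀ a : Fin 3, ∃ b : Pt.{u} (sp j), ((⟨a⟩ : Pt.{u} (sp i)), b) ∈ S := fun a => hS.1 ⟨a⟩
  choose f hf using hex
  have key : ∀ a b : Fin 3, apart (tab i a b) (tab j (f a).val (f b).val) = true →
      (2 : ℝ) ≤ dis S := by
    intro a b h
    exact le_trans (two_le_of_apart h) (le_dis (hf a) (hf b))
  have h := lower i j (f 0).val (f 1).val (f 2).val hij
  simp only [Bool.or_eq_true] at h
  rcases h with (h | h) | h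
  · exact key 0 1 h
  · exact key 0 2 h
  · exact key 1 2 h

theorem diag_optimal (i j : Fin 3) : IsOptimal (proj i j diag.{u}) := by
  refine ⟨diag_isCorr i j, le_antisymm ?_ (dGH_le (diag_isCorr i j))⟩
  by_cases hij : i = j
  · subst hij
    have h1 := diag_dis_self.{u} i
    have h2 : (1 / 2 : ℝ) * 0 ≤ dGH (Pt.{u} (sp i)) (Pt.{u} (sp i)) :=
      le_dGH (diag_isCorr i i) (fun R _ => dis_nonneg R)
    linarith
  · have h1 : dis (proj i j diag.{u}) ≤ 2 := by
      have := diag_dis_le.{u} i j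
      push_cast at this
      exact this
    have h2 : (1 / 2 : ℝ) * 2 ≤ dGH (Pt.{u} (sp i)) (Pt.{u} (sp j)) :=
      le_dGH (diag_isCorr i j) (fun R hR => two_le_dis hij R hR)
    linarith

theorem dGH_le_one (i j : Fin 3) : dGH (Pt.{u} (sp i)) (Pt.{u} (sp j)) ≤ 1 := by
  have h1 : dis (proj i j diag.{u}) ≤ 2 := by
    have := diag_dis_le.{u} i j
    push_cast at this
    exact this
  have h2 := dGH_le (diag_isCorr.{u} i j)
  linarith

theorem not_realisation : ¬ HasRealisation.{u, w} (fun k : Fin 3 => Pt.{u} (sp k)) := by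
  rintro ⟨Z, _, _, φ, hφ, hd⟩
  have hclose : ∀ i j : Fin 3, ∀ a : Fin 3, ∃ b : Fin 3,
      dist (φ i ⟨a⟩) (φ j ⟨b⟩) < 9 / 8 := by
    intro i j a
    have hlt : Metric.hausdorffDist (range (φ i)) (range (φ j)) < 9 / 8 := by
      rw [hd]
      have := dGH_le_one.{u} i j
      linarith
    have hfin : Metric.hausdorffEDist (range (φ i)) (range (φ j)) ≠ ⊤ := by
      apply Metric.hausdorffEDist_ne_top_of_nonempty_of_bounded
      · exact range_nonempty _
      · exact range_nonempty _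
      · exact (finite_range _).isBounded
      · exact (finite_range _).isBounded
    obtain ⟨_, ⟨y, rfl⟩, hy⟩ := Metric.exists_dist_lt_of_hausdorffDist_lt
      (mem_range_self (⟨a⟩ : Pt.{u} (sp i))) hlt hfin
    exact ⟨y.val, hy⟩
  have hd' : ∀ (i : Fin 3) (a b : Fin 3), dist (φ i ⟨a⟩) (φ i ⟨b⟩) = (tab i a b : ℝ) := by
    intro i a b
    rw [(hφ i).dist_eq]
    rfl
  have hid : ∀ i j : Fin 3, i ≠ j → ∀ a, dist (φ i ⟨a⟩) (φ j ⟨a⟩) < 9 / 8 := by
    intro i j hij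
    choose f hf using hclose i j
    have hnear : ∀ a b, near (tab i a b) (tab j (f a) (f b)) = true := by
      intro a b
      have h1 := abs_sub_le (dist (φ i ⟨a⟩) (φ i ⟨b⟩)) (dist (φ j ⟨f a⟩) (φ i ⟨b⟩))
        (dist (φ j ⟨f a⟩) (φ j ⟨f b⟩))
      have h2 := abs_dist_sub_le (φ i ⟨a⟩) (φ j ⟨f a⟩) (φ i ⟨b⟩)
      have h3 := abs_dist_sub_le (φ i ⟨b⟩) (φ j ⟨f b⟩) (φ j ⟨f a⟩)
      rw [dist_comm (φ i ⟨b⟩) (φ j ⟨f a⟩), dist_comm (φ j ⟨f b⟩) (φ j ⟨f a⟩)] at h3
      have h4 := hf a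
      have h5 := hf b
      have h6 : |((tab i a b : ℕ) : ℝ) - (tab j (f a) (f b) : ℕ)| < 3 := by
        rw [← hd' i a b, ← hd' j (f a) (f b)]
        linarith
      rw [abs_lt] at h6
      have h7 : ((tab j (f a) (f b) : ℕ) : ℝ) < (tab i a b : ℕ) + 3 := by linarith [h6.1]
      have h8 : ((tab i a b : ℕ) : ℝ) < (tab j (f a) (f b) : ℕ) + 3 := by linarith [h6.2]
      have h7' : tab j (f a) (f b) < tab i a b + 3 := by exact_mod_cast h7
      have h8' : tab i a b < tab j (f a) (f b) + 3 := by exact_mod_cast h8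
      simp only [near, Bool.and_eq_true, decide_eq_true_eq]
      omega
    obtain ⟨e0, e1, e2⟩ := unique i j (f 0) (f 1) (f 2) hij (by
      simp only [Bool.and_eq_true]
      exact ⟨⟨hnear 0 1, hnear 0 2⟩, hnear 1 2⟩)
    intro a
    have ha := hf a
    fin_cases a
    · have e : f 0 = 0 := e0
      simp only [Fin.zero_eta] at ha ⊢
      rw [e] at ha
      exact ha
    · have e : f 1 = 1 := e1
      simp only [Fin.mk_one] at ha ⊢
      rw [e] at ha
      exact ha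
    · have e : f 2 = 2 := e2
      simp only [Fin.reduceFinMk] at ha ⊢
      rw [e] at ha
      exact ha
  have k1 := hid 0 1 (by decide) 0
  have k2 := hid 1 2 (by decide) 1
  have k3 := hid 2 0 (by decide) 2
  have t1 := dist_triangle (φ 0 ⟨0⟩) (φ 1 ⟨0⟩) (φ 0 ⟨2⟩)
  have t2 := dist_triangle (φ 1 ⟨0⟩) (φ 1 ⟨1⟩) (φ 0 ⟨2⟩)
  have t3 := dist_triangle (φ 1 ⟨1⟩) (φ 2 ⟨1⟩) (φ 0 ⟨2⟩)
  have t4 := dist_triangle (φ 2 ⟨1⟩) (φ 2 ⟨2⟩) (φ 0 ⟨2⟩)
  have v1 : dist (φ 0 ⟨0⟩) (φ 0 ⟨2⟩) = 13 := by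
    rw [hd', show tab 0 0 2 = 13 from rfl]
    norm_num
  have v2 : dist (φ 1 ⟨0⟩) (φ 1 ⟨1⟩) = 6 := by
    rw [hd', show tab 1 0 1 = 6 from rfl]
    norm_num
  have v3 : dist (φ 2 ⟨1⟩) (φ 2 ⟨2⟩) = 3 := by
    rw [hd', show tab 2 1 2 = 3 from rfl]
    norm_num
  linarith

/-- Three three-point spaces for which one relation has all its projections optimal, but which
have no common Hausdorff realisation. -/
theorem result : ∃ (X : Fin 3 → Type u) (_ : ∀ i, MetricSpace (X i)) (_ : ∀ i, CompactSpace (X i))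
    (_ : ∀ i, Nonempty (X i)), HasTriple X ∧ ¬ HasRealisation.{u, w} X :=
  ⟨fun k : Fin 3 => Pt.{u} (sp k), inferInstance, inferInstance, inferInstance,
    ⟨diag, diag_optimal⟩, not_realisation⟩

/-- In particular statement (H) is false. -/
theorem not_statementH : ¬ StatementH.{u} := fun h =>
  not_realisation (h (fun k : Fin 3 => Pt.{u} (sp k)))

end Pool.Agent.Results.MP_c3dba2_gt.Pointwise
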